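import Mathlib

/-! Amplification of a proper weakly closed algebra with the doubled lattice of `B(K)` to a Hilbert
sum of copies of `K`. -/

set_option autoImplicit false

open Filter Topology

open scoped InnerProductSpace

namespace Pool.Agent.Y830.AR

/-- The algebra is closed in the weak operator topology. -/
def WClosed {H : Type} [NormedAddCommGroup H] [InnerProductSpace ℂ H]
    (Alg : Subalgebra ℂ (H →L[ℂ] H)) : Prop :=
  ∀ T : H →L[ℂ] H, (∀ (F : Finset (H × H)) (ε : ℝ), 0 < ε →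
    ∃ S ∈ Alg, ∀ p ∈ F, ‖⟪(T - S) p.1, p.2⟫_ℂ‖ < ε) → T ∈ Alg

/-- The subspace `M` of `H ⊕ H` is invariant under `A ⊕ A` for every operator `A` in `Alg`. -/
def DInv {H : Type} [NormedAddCommGroup H] [InnerProductSpace ℂ H]
    (Alg : Subalgebra ℂ (H →L[ℂ] H)) (M : Submodule ℂ (H × H)) : Prop :=
  ∀ A ∈ Alg, ∀ p ∈ M, (A p.1, A p.2) ∈ M

variable {K H : Type} [NormedAddCommGroup K] [InnerProductSpace ℂ K] [CompleteSpace K]
  [NormedAddCommGroup H] [InnerProductSpace ℂ H] [CompleteSpace H]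
  {κ : Type} [DecidableEq κ]

section
variable (V : κ → K →L[ℂ] H) (E : κ → H →L[ℂ] K)

/-- The entries of an operator. -/
def ent (k l : κ) (T : H →L[ℂ] H) : K →L[ℂ] K := (E k).comp (T.comp (V l))

lemma ent_apply (k l : κ) (T : H →L[ℂ] H) (x : K) : ent V E k l T x = E k (T (V l x)) := rfl

variable (hEV : ∀ k l x, E k (V l x) = if k = l then x else 0)
  (hsum : ∀ u, HasSum (fun k => V k (E k u)) u)
  (A₀ : Subalgebra ℂ (K →L[ℂ] K)) (hA₀ : WClosed A₀)

include hsum hA₀ in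
omit [DecidableEq κ] [CompleteSpace H] in
lemma ent_mul {S T : H →L[ℂ] H} (hS : ∀ k l, ent V E k l S ∈ A₀) (hT : ∀ k l, ent V E k l T ∈ A₀)
    (k l : κ) : ent V E k l (S * T) ∈ A₀ := by
  apply hA₀
  intro F ε hε
  have hev : ∀ᶠ G : Finset κ in atTop, ∀ p ∈ F,
      ‖⟪E k (S (T (V l p.1))) - E k (S (∑ m ∈ G, V m (E m (T (V l p.1))))), p.2⟫_ℂ‖ < ε := by
    rw [Filter.eventually_all_finset]
    intro p _
    have h1 : Tendsto (fun G : Finset κ => ∑ m ∈ G, V m (E m (T (V l p.1)))) atTop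
        (𝓝 (T (V l p.1))) := hsum (T (V l p.1))
    have hc : Continuous fun u : H => ‖⟪E k (S (T (V l p.1))) - E k (S u), p.2⟫_ℂ‖ := by fun_prop
    have h2 := (hc.tendsto _).comp h1
    have h3 : ‖⟪E k (S (T (V l p.1))) - E k (S (T (V l p.1))), p.2⟫_ℂ‖ = 0 := by simp
    rw [h3] at h2
    exact h2.eventually_lt_const hε
  obtain ⟨G, hG⟩ := hev.exists
  refine ⟨∑ m ∈ G, ent V E k m S * ent V E m l T,
    A₀.sum_mem fun m _ => A₀.mul_mem (hS k m) (hT m l), fun p hp => ?_⟩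
  have h := hG p hp
  have e : (ent V E k l (S * T) - ∑ m ∈ G, ent V E k m S * ent V E m l T) p.1 =
      E k (S (T (V l p.1))) - E k (S (∑ m ∈ G, V m (E m (T (V l p.1))))) := by
    rw [ContinuousLinearMap.sub_apply, ContinuousLinearMap.sum_apply, map_sum, map_sum]
    rfl
  rw [e]
  exact h

/-- The amplified algebra. -/
def amp : Subalgebra ℂ (H →L[ℂ] H) where
  carrier := {T | ∀ k l, ent V E k l T ∈ A₀}
  mul_mem' := fun {S T} hS hT k l => ent_mul V E hsum A₀ hA₀ hS hT k l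
  add_mem' := by
    intro S T hS hT k l
    have : ent V E k l (S + T) = ent V E k l S + ent V E k l T := by
      ext1 x
      simp [ent_apply, map_add]
    rw [this]
    exact A₀.add_mem (hS k l) (hT k l)
  algebraMap_mem' := by
    intro r k l
    have : ent V E k l (algebraMap ℂ (H →L[ℂ] H) r) =
        if k = l then algebraMap ℂ (K →L[ℂ] K) r else 0 := by
      ext1 x
      rw [ent_apply, Algebra.algebraMap_eq_smul_one]
      change E k (r • V l x) = _
      rw [map_smul, hEV]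
      split_ifs with h
      · rw [Algebra.algebraMap_eq_smul_one]; rfl
      · simp
    rw [this]
    split_ifs
    · exact A₀.algebraMap_mem r
    · exact A₀.zero_mem

lemma mem_amp (T : H →L[ℂ] H) :
    T ∈ amp V E hEV hsum A₀ hA₀ ↔ ∀ k l, ent V E k l T ∈ A₀ := Iff.rfl

lemma unit_mem (i j : κ) (a : K →L[ℂ] K) (ha : a ∈ A₀) :
    (V i).comp (a.comp (E j)) ∈ amp V E hEV hsum A₀ hA₀ := by
  intro k l
  have : ent V E k l ((V i).comp (a.comp (E j))) = if k = i ∧ j = l then a else 0 := by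
    ext1 x
    rw [ent_apply]
    change E k (V i (a (E j (V l x)))) = _
    rw [hEV, hEV]
    by_cases h1 : k = i <;> by_cases h2 : j = l <;> simp [h1, h2]
  rw [this]
  split_ifs
  · exact ha
  · exact A₀.zero_mem

lemma amp_closed : WClosed (amp V E hEV hsum A₀ hA₀) := by
  classical
  intro T hT k l
  apply hA₀
  intro F ε hε
  obtain ⟨S, hS, hS2⟩ := hT (F.image fun p => (V l p.1, (ContinuousLinearMap.adjoint (E k)) p.2)) ε hε
  refine ⟨ent V E k l S, hS k l, fun p hp => ?_⟩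
  have h := hS2 _ (Finset.mem_image_of_mem _ hp)
  simp only at h
  rw [ContinuousLinearMap.adjoint_inner_right] at h
  have e : (ent V E k l T - ent V E k l S) p.1 = E k ((T - S) (V l p.1)) := by
    rw [ContinuousLinearMap.sub_apply, ContinuousLinearMap.sub_apply, map_sub]
    rfl
  rw [e]
  exact h

lemma amp_ne_top (k₀ : κ) (hne : A₀ ≠ ⊤) : amp V E hEV hsum A₀ hA₀ ≠ ⊤ := by
  intro htop
  apply hne
  rw [Algebra.eq_top_iff]
  intro a
  have h : (V k₀).comp (a.comp (E k₀)) ∈ amp V E hEV hsum A₀ hA₀ := by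
    rw [htop]; exact Algebra.mem_top
  have h2 := h k₀ k₀
  have e : ent V E k₀ k₀ ((V k₀).comp (a.comp (E k₀))) = a := by
    ext1 x
    rw [ent_apply]
    change E k₀ (V k₀ (a (E k₀ (V k₀ x)))) = _
    simp [hEV]
  rw [e] at h2
  exact h2

variable (hbd : ∀ (F : Finset κ) (u : H), ‖∑ k ∈ F, V k (E k u)‖ ≤ ‖u‖)

include hbd in
lemma amp_inv (k₀ : κ)
    (hlat : ∀ M : Submodule ℂ (K × K), IsClosed (M : Set (K × K)) → DInv A₀ M → DInv ⊤ M)
    (M : Submodule ℂ (H × H)) (hM : IsClosed (M : Set (H × H)))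
    (hinv : DInv (amp V E hEV hsum A₀ hA₀) M) : DInv ⊤ M := by
  intro T _ p hp
  let PV : (K × K) →L[ℂ] (H × H) := (V k₀).prodMap (V k₀)
  let M₀ : Submodule ℂ (K × K) := M.comap (PV : (K × K) →ₗ[ℂ] (H × H))
  have hM₀mem : ∀ f, f ∈ M₀ ↔ (V k₀ f.1, V k₀ f.2) ∈ M := fun f => Iff.rfl
  have hM₀ : IsClosed (M₀ : Set (K × K)) := hM.preimage PV.continuous
  have hM₀inv : DInv ⊤ M₀ := by
    refine hlat M₀ hM₀ fun a ha f hf => ?_
    rw [hM₀mem] at hf ⊢
    have h := hinv _ (unit_mem V E hEV hsum A₀ hA₀ k₀ k₀ a ha) _ hf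
    change (V k₀ (a (E k₀ (V k₀ f.1))), V k₀ (a (E k₀ (V k₀ f.2)))) ∈ M at h
    simpa [hEV] using h
  have hone : (1 : K →L[ℂ] K) ∈ A₀ := A₀.one_mem
  have hE : ∀ l, (E l p.1, E l p.2) ∈ M₀ := by
    intro l
    rw [hM₀mem]
    have h := hinv _ (unit_mem V E hEV hsum A₀ hA₀ k₀ l 1 hone) _ hp
    exact h
  have hkl : ∀ k l, (V k (E k (T (V l (E l p.1)))), V k (E k (T (V l (E l p.2))))) ∈ M := by
    intro k l
    have h1 := hM₀inv (ent V E k l T) Algebra.mem_top _ (hE l)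
    rw [hM₀mem] at h1
    have h2 := hinv _ (unit_mem V E hEV hsum A₀ hA₀ k k₀ 1 hone) _ h1
    change (V k (E k₀ (V k₀ (E k (T (V l (E l p.1)))))),
      V k (E k₀ (V k₀ (E k (T (V l (E l p.2))))))) ∈ M at h2
    simpa [hEV] using h2
  -- finite sections
  have hF : ∀ F : Finset κ, ((∑ k ∈ F, V k (E k (T (∑ l ∈ F, V l (E l p.1)))),
      ∑ k ∈ F, V k (E k (T (∑ l ∈ F, V l (E l p.2))))) : H × H) ∈ M := by
    intro F
    have : ((∑ k ∈ F, V k (E k (T (∑ l ∈ F, V l (E l p.1)))),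
      ∑ k ∈ F, V k (E k (T (∑ l ∈ F, V l (E l p.2))))) : H × H) =
      ∑ k ∈ F, ∑ l ∈ F, (V k (E k (T (V l (E l p.1)))), V k (E k (T (V l (E l p.2))))) := by
      simp only [map_sum]
      rw [Prod.ext_iff]
      constructor
      · simp [Prod.fst_sum]
      · simp [Prod.snd_sum]
    rw [this]
    exact M.sum_mem fun k _ => M.sum_mem fun l _ => hkl k l
  have hlim : ∀ u : H, Tendsto (fun F : Finset κ => ∑ k ∈ F, V k (E k (T (∑ l ∈ F, V l (E l u)))))
      atTop (𝓝 (T u)) := by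
    intro u
    have h1 : Tendsto (fun F : Finset κ => ∑ l ∈ F, V l (E l u)) atTop (𝓝 u) := hsum u
    have h2 : Tendsto (fun F : Finset κ => ∑ k ∈ F, V k (E k (T u))) atTop (𝓝 (T u)) := hsum (T u)
    have h3 : Tendsto (fun F : Finset κ => ∑ k ∈ F, V k (E k (T (∑ l ∈ F, V l (E l u) - u))))
        atTop (𝓝 0) := by
      rw [tendsto_zero_iff_norm_tendsto_zero]
      have h4 : Tendsto (fun F : Finset κ => ‖T (∑ l ∈ F, V l (E l u) - u)‖) atTop (𝓝 0) := by
        have h5 : Tendsto (fun F : Finset κ => ∑ l ∈ F, V l (E l u) - u) atTop (𝓝 0) := by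
          have := h1.sub_const u
          rwa [sub_self] at this
        have h6 := ((T.continuous.tendsto 0).comp h5).norm
        simpa [Function.comp_def] using h6
      exact squeeze_zero (fun F => norm_nonneg _) (fun F => hbd F _) h4
    have h7 := h3.add h2
    rw [zero_add] at h7
    refine h7.congr fun F => ?_
    rw [← Finset.sum_add_distrib]
    refine Finset.sum_congr rfl fun k _ => ?_
    rw [← map_add, ← map_add, ← map_add, sub_add_cancel]
  exact hM.mem_of_tendsto ((hlim p.1).prodMk_nhds (hlim p.2)) (Eventually.of_forall hF)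

end

end Pool.Agent.Y830.AR
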