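import Mathlib
import Pool.Agent.Y830.AR.Amp

/-! The finite-dimensional case, and the decomposition of an infinite-dimensional Hilbert space. -/

set_option autoImplicit false

open Filter Topology

open scoped InnerProductSpace

namespace Pool.Agent.Y830.AR

variable {H : Type} [NormedAddCommGroup H] [InnerProductSpace ℂ H]

/-- In finite dimension the doubled lattice determines the algebra. -/
theorem finite_case [FiniteDimensional ℂ H] (Alg : Subalgebra ℂ (H →L[ℂ] H))
    (hlat : ∀ M : Submodule ℂ (H × H), IsClosed (M : Set (H × H)) → DInv Alg M → DInv ⊤ M) :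
    Alg = ⊤ := by
  rcases subsingleton_or_nontrivial H with hs | hn
  · rw [Algebra.eq_top_iff]
    intro T
    have : T = 0 := by ext x; exact Subsingleton.elim _ _
    rw [this]
    exact Alg.zero_mem
  -- doubly invariant subspaces coming from submodules
  have h1 : ∀ N : Submodule Alg H, N = ⊥ ∨ N = ⊤ := by
    intro N
    let M : Submodule ℂ (H × H) :=
      { carrier := {p | p.1 ∈ N ∧ p.2 = 0}
        add_mem' := by
          rintro p q ⟨a, b⟩ ⟨c, d⟩
          exact ⟨N.add_mem a c, by simp [b, d]⟩
        zero_mem' := ⟨N.zero_mem, rfl⟩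
        smul_mem' := by
          rintro r p ⟨a, b⟩
          refine ⟨?_, by simp [b]⟩
          have := N.smul_mem (⟨algebraMap ℂ _ r, Alg.algebraMap_mem r⟩ : Alg) a
          change (algebraMap ℂ (H →L[ℂ] H) r) p.1 ∈ N at this
          rw [Algebra.algebraMap_eq_smul_one] at this
          exact this }
    have hM := hlat M M.closed_of_finiteDimensional (by
      rintro A hA p ⟨a, b⟩
      refine ⟨N.smul_mem (⟨A, hA⟩ : Alg) a, ?_⟩
      change A p.2 = 0
      rw [b, map_zero])
    by_cases hN : N = ⊥
    · exact Or.inl hN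
    · right
      obtain ⟨v, hv, hv0⟩ := Submodule.exists_mem_ne_zero_of_ne_bot hN
      rw [Submodule.eq_top_iff']
      intro y
      obtain ⟨f, hf⟩ := SeparatingDual.exists_eq_one (R := ℂ) hv0
      have := hM (f.smulRight y) Algebra.mem_top (v, 0) ⟨hv, rfl⟩
      have h2 : (f.smulRight y) v ∈ N := this.1
      rw [ContinuousLinearMap.smulRight_apply, hf, one_smul] at h2
      exact h2
  have hsimple : IsSimpleModule Alg H := by
    rw [isSimpleModule_iff]
    have : Nontrivial (Submodule Alg H) := by
      obtain ⟨v, hv⟩ := exists_ne (0 : H)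
      refine ⟨⊥, ⊤, fun h => hv ?_⟩
      have : v ∈ (⊤ : Submodule Alg H) := trivial
      rw [← h] at this
      exact (Submodule.mem_bot _).1 this
    exact ⟨h1⟩
  -- two-transitivity
  have h2 : ∀ x y : H, (∀ c : ℂ, y ≠ c • x) → x ≠ 0 → ∃ A ∈ Alg, A x = 0 ∧ A y ≠ 0 := by
    intro x y hxy hx
    let L : (H →L[ℂ] H) →ₗ[ℂ] (H × H) :=
      { toFun := fun A => (A x, A y)
        map_add' := fun A B => rfl
        map_smul' := fun c A => rfl }
    let M : Submodule ℂ (H × H) := (Subalgebra.toSubmodule Alg).map L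
    have hM := hlat M M.closed_of_finiteDimensional (by
      rintro A hA p ⟨B, hB, rfl⟩
      exact ⟨A * B, Alg.mul_mem hA hB, rfl⟩)
    have hmem : ((x, y) : H × H) ∈ M := ⟨1, Alg.one_mem, rfl⟩
    -- an operator killing `x` and not `y`
    have hli : LinearIndependent ℂ ![x, y] := by
      rw [LinearIndependent.pair_iff' hx]
      intro a ha
      exact hxy a ha.symm
    obtain ⟨f, hf⟩ : ∃ f : H →L[ℂ] ℂ, f x = 0 ∧ f y ≠ 0 := by
      let S : Submodule ℂ H := Submodule.span ℂ {x}
      have hy : y ∉ S := by
        intro h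
        obtain ⟨c, hc⟩ := Submodule.mem_span_singleton.1 h
        exact hxy c hc.symm
      have hS : IsClosed (S : Set H) := S.closed_of_finiteDimensional
      obtain ⟨f, hf1, hf2⟩ := Submodule.exists_dual_map_eq_bot_of_notMem hy inferInstance
      refine ⟨LinearMap.toContinuousLinearMap f, ?_, hf1⟩
      have : f x ∈ S.map f := ⟨x, Submodule.mem_span_singleton_self x, rfl⟩
      rw [hf2] at this
      exact (Submodule.mem_bot _).1 this
    have h3 := hM (f.smulRight y) Algebra.mem_top _ hmem
    obtain ⟨A, hA, hA2⟩ := h3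
    have e1 : A x = (f.smulRight y) x := congrArg Prod.fst hA2
    have e2 : A y = (f.smulRight y) y := congrArg Prod.snd hA2
    refine ⟨A, hA, ?_, ?_⟩
    · rw [e1, ContinuousLinearMap.smulRight_apply, hf.1, zero_smul]
    · rw [e2, ContinuousLinearMap.smulRight_apply]
      refine smul_ne_zero hf.2 ?_
      intro h
      exact hxy 0 (by rw [h, zero_smul])
  -- Schur
  have h3 : ∀ φ : Module.End Alg H, ∃ c : ℂ, ∀ x, φ x = c • x := by
    intro φ
    have hφ : ∀ (A : H →L[ℂ] H) (_ : A ∈ Alg) (x : H), φ (A x) = A (φ x) := by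
      intro A hA x
      exact φ.map_smul (⟨A, hA⟩ : Alg) x
    have hpt : ∀ x : H, ∃ c : ℂ, φ x = c • x := by
      intro x
      by_cases hx : x = 0
      · exact ⟨0, by rw [hx, map_zero, smul_zero]⟩
      · by_contra hcon
        push Not at hcon
        obtain ⟨A, hA, hAx, hAy⟩ := h2 x (φ x) hcon hx
        exact hAy (by rw [← hφ A hA, hAx, map_zero])
    have hφs : ∀ (c : ℂ) (x : H), φ (c • x) = c • φ x := by
      intro c x
      have := hφ (algebraMap ℂ _ c) (Alg.algebraMap_mem c) x
      rw [Algebra.algebraMap_eq_smul_one] at this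
      exact this
    -- all the constants agree
    obtain ⟨v, hv⟩ := exists_ne (0 : H)
    obtain ⟨c, hc⟩ := hpt v
    refine ⟨c, fun x => ?_⟩
    obtain ⟨d, hd⟩ := hpt x
    obtain ⟨g, hg⟩ := hpt (v + x)
    rw [map_add, hc, hd, smul_add] at hg
    by_cases hx : ∃ r : ℂ, x = r • v
    · obtain ⟨r, rfl⟩ := hx
      rw [hφs, hc, smul_comm]
    · have hli : LinearIndependent ℂ ![v, x] := by
        rw [LinearIndependent.pair_iff' hv]
        intro a ha
        exact hx ⟨a, ha.symm⟩
      have h4 : (c - g) • v + (d - g) • x = 0 := by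
        rw [sub_smul, sub_smul]
        have : c • v + d • x = g • v + g • x := hg
        rw [sub_add_sub_comm, this, sub_self]
      have h5 := LinearIndependent.pair_iff.1 hli _ _ h4
      have h6 : c = g := sub_eq_zero.1 h5.1
      have h7 : d = g := sub_eq_zero.1 h5.2
      rw [hd, h7, h6]
  rw [Algebra.eq_top_iff]
  intro T
  classical
  -- density
  let f : Module.End (Module.End Alg H) H :=
    { toFun := T
      map_add' := fun x y => map_add T x y
      map_smul' := by
        intro φ x
        obtain ⟨c, hc⟩ := h3 φ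
        change T (φ x) = φ (T x)
        rw [hc, hc, map_smul] }
  obtain ⟨r, hr⟩ := jacobson_density f (Finset.univ.image (Module.finBasis ℂ H))
  have : T = r := by
    have h8 : (T : H →ₗ[ℂ] H) = (r : H →L[ℂ] H) := by
      refine (Module.finBasis ℂ H).ext fun i => ?_
      exact hr _ (Finset.mem_image_of_mem _ (Finset.mem_univ i))
    ext x
    exact congrArg (fun L : H →ₗ[ℂ] H => L x) h8
  rw [this]
  exact r.2

/-- The model of the separable space. -/
abbrev K0 : Type := lp (fun _ : ℤ => ℂ) 2

/-- Hilbert basis of `K0`. -/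
noncomputable def K0basis : HilbertBasis ℤ ℂ K0 := HilbertBasis.ofRepr (LinearIsometryEquiv.refl ℂ K0)

section
variable (κ : Type) [DecidableEq κ]

/-- The Hilbert sum of copies of `K0`. -/
abbrev Sum0 : Type := lp (fun _ : κ => K0) 2

/-- The orthonormal family of the Hilbert sum. -/
noncomputable def fam (p : κ × ℤ) : Sum0 κ := lp.single 2 p.1 (K0basis p.2)

lemma fam_orthonormal : Orthonormal ℂ (fam κ) := by
  rw [orthonormal_iff_ite]
  rintro ⟨k, n⟩ ⟨l, m⟩
  unfold fam
  rw [lp.inner_single_left, lp.single_apply]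
  have hb := (orthonormal_iff_ite.1 K0basis.orthonormal) n m
  by_cases h : k = l
  · subst h
    rw [Pi.single_eq_same, hb]
    by_cases h2 : n = m <;> simp [h2]
  · rw [Pi.single_eq_of_ne h, inner_zero_right, if_neg]
    intro h3
    exact h (Prod.ext_iff.1 h3).1

lemma fam_total : (Submodule.span ℂ (Set.range (fam κ)))ᗮ = ⊥ := by
  rw [Submodule.eq_bot_iff]
  intro f hf
  have h1 : ∀ k n, ⟪K0basis n, f k⟫_ℂ = 0 := by
    intro k n
    have := Submodule.inner_right_of_mem_orthogonal
      (Submodule.subset_span (Set.mem_range_self (k, n))) hf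
    unfold fam at this
    rwa [lp.inner_single_left] at this
  ext1
  funext k
  have h2 : K0basis.repr (f k) = 0 := by
    ext n
    rw [HilbertBasis.repr_apply_apply, h1 k n]
    rfl
  have := K0basis.repr.map_eq_zero_iff.1 h2
  exact this

/-- Hilbert basis of the Hilbert sum. -/
noncomputable def sumBasis : HilbertBasis (κ × ℤ) ℂ (Sum0 κ) :=
  HilbertBasis.mkOfOrthogonalEqBot (fam_orthonormal κ) (fam_total κ)

end

/-- Every infinite-dimensional Hilbert space is a Hilbert sum of copies of `K0`. -/
theorem exists_sum (H : Type) [NormedAddCommGroup H] [InnerProductSpace ℂ H] [CompleteSpace H]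
    (hinf : ¬ FiniteDimensional ℂ H) :
    ∃ (κ : Type) (_ : DecidableEq κ), Nonempty κ ∧ Nonempty (H ≃ₗᵢ[ℂ] Sum0 κ) := by
  classical
  obtain ⟨w, b, hb⟩ := exists_hilbertBasis ℂ H
  have hwinf : Infinite w := by
    by_contra hfin
    rw [not_infinite_iff_finite] at hfin
    have : Fintype w := Fintype.ofFinite w
    exact hinf (b.toOrthonormalBasis.toBasis.finiteDimensional_of_finite)
  have hcard : Cardinal.mk (w × ℤ) = Cardinal.mk w := by
    rw [Cardinal.mk_prod]
    simp only [Cardinal.lift_id, Cardinal.mk_int]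
    exact Cardinal.mul_eq_left (Cardinal.aleph0_le_mk w) (Cardinal.aleph0_le_mk w)
      Cardinal.aleph0_ne_zero
  obtain ⟨e⟩ := Cardinal.eq.1 hcard
  let b2 : HilbertBasis (w × ℤ) ℂ H := HilbertBasis.mkOfOrthogonalEqBot
    (v := fun p => b (e p)) (b.orthonormal.comp e e.injective) (by
      have : Set.range (fun p => b (e p)) = Set.range b := e.surjective.range_comp b
      rw [this]
      exact Submodule.topologicalClosure_eq_top_iff.1 b.dense_span)
  exact ⟨w, inferInstance, inferInstance, ⟨b2.repr.trans (sumBasis w).repr.symm⟩⟩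

end Pool.Agent.Y830.AR
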